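import Pool.Agent.H13.EDM.Targets
import Pool.Agent.H4.TX.KNX

/-!
# Heights and a section divisible by `X_j - g` (row KNC of edm_modules)
-/

set_option autoImplicit false

open MvPolynomial
open Pool.Agent.H12.ZD (pmap)
open Pool.Agent.H18.HIT Pool.Agent.H18.HX Pool.Agent.H18.VZ
open Pool.Agent.H8.ZA (HFam Const NA)
open Pool.Agent.H8.TD (lc dg Wsp Cop dh)

namespace Pool.Agent.H60.EDM

open Pool.Agent.H8.TX Pool.Agent.H4.TX Pool.Agent.H13.EDM

theorem pf_KNC (hGNX : Pool.Agent.H8.TD.T_GNX) (hWBY : Pool.Agent.H8.TX.T_WBY) :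
    Pool.Agent.H13.EDM.T_KNC := by
  classical
  intro a b n l J R _ _ A B g S S' hS'0 hSS hSW
  obtain ⟨γ₀, hγ₀⟩ := ne_zero_iff.1 hS'0
  refine ⟨coeff γ₀ S', hγ₀, fun K' F => ?_⟩
  -- constants
  choose cG hcG0 hcG1 hcGna hcG using fun i =>
    hGNX Qb J S'.totalDegree (F.abv i)
  choose cW hcW hcWb using fun γ => hWBY R a b A B (n) (l) (coeff γ S) (hSW γ) K' F
  set CW : F.ι → ℝ := fun i => ∏ γ ∈ S.support, cW γ i with hCW
  have hCWc : Const F CW := Pool.Agent.H8.ZA.Const.prod _ _ fun γ _ => hcW γ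
  have hGc : Const F fun i => (cG i)⁻¹ := by
    refine ⟨fun i => (one_le_inv₀ (hcG0 i)).2 (hcG1 i), ?_⟩
    refine (F.arch.finite_toSet).subset fun i hi => ?_
    by_contra hcon
    exact hi (by rw [hcGna i (F.na i hcon), inv_one])
  set CC : F.ι → ℝ := fun i => CW i * (cG i)⁻¹ with hCC
  have hCCc : Const F CC := hCWc.mul hGc
  refine ⟨∑ᶠ i, Real.log (CC i), fun m evs hb0 hbK => ?_⟩
  -- the local inequality
  have hloc : ∀ (ev : R →ₐ[Qb] Qb) (i : F.ι), cG i * max 1 (F.abv i (ev g)) ^ J *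
      F.abv i (ev (coeff γ₀ S')) ≤
      CW i * (szn (F.abv i) (fun j => ev (A j)) ^ (n) *
        szn (F.abv i) (fun j => ev (B j)) ^ (l)) := by
    intro ev i
    have hms : map (ev : R →+* Qb) S =
        (∏ j, (X j - C (ev g))) * map (ev : R →+* Qb) S' := by
      rw [hSS, map_mul, map_prod]
      congr 1
      apply Finset.prod_congr rfl
      intro j _
      rw [map_sub, map_X, map_C]
      rfl
    have hdeg : (map (ev : R →+* Qb) S').totalDegree ≤ S'.totalDegree :=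
      Pool.Agent.H8.ZA.totalDegree_map_le _ _
    obtain ⟨γ', hγ'⟩ := hcG i (ev g) (map (ev : R →+* Qb) S') hdeg γ₀
    rw [← hms, coeff_map, coeff_map] at hγ'
    refine hγ'.trans ?_
    have hR : 0 ≤ szn (F.abv i) (fun j => ev (A j)) ^ (n) *
        szn (F.abv i) (fun j => ev (B j)) ^ (l) :=
      mul_nonneg (pow_nonneg (szn_pos _ _).le _)
        (pow_nonneg (szn_pos _ _).le _)
    by_cases hsup : γ' ∈ S.support
    · refine (hcWb γ' i ev).trans ?_
      exact mul_le_mul_of_nonneg_right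
        (Pool.Agent.H8.ZA.le_prod_const _ _ (fun γ _ => hcW γ) hsup i) hR
    · rw [notMem_support_iff.1 hsup, map_zero, map_zero]
      exact mul_nonneg (hCWc.pos i).le hR
  have hloc2 : ∀ ev : R →ₐ[Qb] Qb, ev (coeff γ₀ S') ≠ 0 → ∀ i : F.ι, ((J : ℕ) : ℝ) * Real.log (szn (F.abv i) ![ev g]) +
      Real.log (F.abv i (ev (coeff γ₀ S'))) ≤
      ((n : ℕ) : ℝ) * Real.log (szn (F.abv i) (fun j => ev (A j))) +
      ((l : ℕ) : ℝ) * Real.log (szn (F.abv i) (fun j => ev (B j))) +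
        Real.log (CC i) := by
    intro ev hb0 i
    have hb : 0 < F.abv i (ev (coeff γ₀ S')) := (F.abv i).pos hb0
    have hsA := szn_pos (F.abv i) (fun j => ev (A j))
    have hsB := szn_pos (F.abv i) (fun j => ev (B j))
    have hmx : (0 : ℝ) < max 1 (F.abv i (ev g)) := lt_of_lt_of_le one_pos (le_max_left _ _)
    have h2 := Real.log_le_log (mul_pos (mul_pos (hcG0 i) (pow_pos hmx _)) hb) (hloc ev i)
    rw [Real.log_mul (mul_pos (hcG0 i) (pow_pos hmx _)).ne' hb.ne',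
      Real.log_mul (hcG0 i).ne' (pow_pos hmx _).ne', Real.log_pow,
      Real.log_mul (hCWc.pos i).ne' (mul_pos (pow_pos hsA _) (pow_pos hsB _)).ne',
      Real.log_mul (pow_pos hsA _).ne' (pow_pos hsB _).ne', Real.log_pow,
      Real.log_pow] at h2
    have h3 : Real.log (CC i) = Real.log (CW i) - Real.log (cG i) := by
      simp only [hCC]
      rw [Real.log_mul (hCWc.pos i).ne' (inv_pos.2 (hcG0 i)).ne', Real.log_inv]
      ring
    rw [h3, szn_single]
    linarith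
  have hcmp : ∀ ev : R →ₐ[Qb] Qb, ev (coeff γ₀ S') ≠ 0 →
      ((J : ℕ) : ℝ) * hn F ![ev g] + ∑ᶠ i, Real.log (F.abv i (ev (coeff γ₀ S'))) ≤
      ((n : ℕ) : ℝ) * hn F (fun j => ev (A j)) +
      ((l : ℕ) : ℝ) * hn F (fun j => ev (B j)) + ∑ᶠ i, Real.log (CC i) :=
    fun ev hb => hn_compare F _ hb CC hCCc (hloc2 ev hb)
  have hsum := Finset.sum_le_sum fun j (_ : j ∈ (Finset.univ : Finset (Fin m))) =>
    hcmp (evs j) (hb0 j)
  have hprod : ∑ j, ∑ᶠ i, Real.log (F.abv i (evs j (coeff γ₀ S'))) = 0 := by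
    rw [← finsum_sum_comm _ _ (fun j _ => log_abv_finite F (hb0 j))]
    rw [← F.prod _ hbK (Finset.prod_ne_zero_iff.2 fun j _ => hb0 j)]
    refine finsum_congr fun i => ?_
    rw [map_prod, Real.log_prod (fun j _ => ((F.abv i).pos (hb0 j)).ne')]
  rw [Finset.sum_add_distrib, hprod, add_zero, ← Finset.mul_sum, Finset.sum_add_distrib,
    Finset.sum_add_distrib, ← Finset.mul_sum, ← Finset.mul_sum, Finset.sum_const,
    Finset.card_univ, Fintype.card_fin, nsmul_eq_mul] at hsum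
  linarith

end Pool.Agent.H60.EDM
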