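import Pool.Agent.H13.EDM.Targets

/-!
# NM8: the choice of the parameters
-/

set_option autoImplicit false

open Filter Topology

namespace Pool.Agent.H60.EDM

open Pool.Agent.H13.EDM

theorem pow_le_choose (n k : ℕ) : (n + 1) ^ k ≤ k.factorial * (n + k).choose k := by
  rw [← Nat.ascFactorial_eq_factorial_mul_choose]
  exact Nat.pow_succ_le_ascFactorial (n + 1) k

theorem large (e i Q n₁ l₁ n₂ c D : ℕ) (hi : i ≤ e + 1) (hQ : 1 ≤ Q) (hn : 1 ≤ n₁)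
    (hl : 1 ≤ l₁) : ∃ t : ℕ, 1 ≤ t ∧ n₂ ≤ t ∧
      (t * (Q * n₁ ^ i * l₁ ^ (e + 1 - i)) + D) * (t + c) ^ e ≤
        2 * (Q * (t * n₁ - n₂) ^ i * (t * l₁ - n₂) ^ (e + 1 - i)) := by
  obtain ⟨X, hX⟩ : ∃ X : ℝ, X = Q * n₁ ^ i * l₁ ^ (e + 1 - i) := ⟨_, rfl⟩
  have hQ' : (0 : ℝ) < Q := by exact_mod_cast hQ
  have hn' : (0 : ℝ) < n₁ := by exact_mod_cast hn
  have hl' : (0 : ℝ) < l₁ := by exact_mod_cast hl
  have hX0 : 0 < X := by rw [hX]; positivity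
  have l1 : Tendsto (fun t : ℕ => (X + D / (t : ℝ)) * (1 + c / (t : ℝ)) ^ e) atTop
      (𝓝 ((X + 0) * (1 + 0) ^ e)) :=
    (tendsto_const_nhds.add (tendsto_const_div_atTop_nhds_zero_nat (D : ℝ))).mul
      ((tendsto_const_nhds.add (tendsto_const_div_atTop_nhds_zero_nat (c : ℝ))).pow e)
  have l2 : Tendsto (fun t : ℕ => 2 * (Q * ((n₁ : ℝ) - n₂ / (t : ℝ)) ^ i *
      ((l₁ : ℝ) - n₂ / (t : ℝ)) ^ (e + 1 - i))) atTop
      (𝓝 (2 * (Q * ((n₁ : ℝ) - 0) ^ i * ((l₁ : ℝ) - 0) ^ (e + 1 - i)))) :=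
    tendsto_const_nhds.mul ((tendsto_const_nhds.mul
      ((tendsto_const_nhds.sub (tendsto_const_div_atTop_nhds_zero_nat (n₂ : ℝ))).pow i)).mul
      ((tendsto_const_nhds.sub (tendsto_const_div_atTop_nhds_zero_nat (n₂ : ℝ))).pow _))
  have hlt : (X + 0) * (1 + 0) ^ e <
      2 * (Q * ((n₁ : ℝ) - 0) ^ i * ((l₁ : ℝ) - 0) ^ (e + 1 - i)) := by
    rw [add_zero, add_zero, one_pow, mul_one, sub_zero, sub_zero, ← hX]
    linarith
  have h3 := (l1.eventually_lt l2 hlt).and (eventually_ge_atTop (max 1 n₂))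
  obtain ⟨t, ht, hmax⟩ := h3.exists
  have ht1 : 1 ≤ t := le_trans (le_max_left _ _) hmax
  have ht2 : n₂ ≤ t := le_trans (le_max_right _ _) hmax
  refine ⟨t, ht1, ht2, ?_⟩
  have ht0 : (0 : ℝ) < t := by exact_mod_cast ht1
  have e1 : n₂ ≤ t * n₁ := ht2.trans (Nat.le_mul_of_pos_right _ hn)
  have e2 : n₂ ≤ t * l₁ := ht2.trans (Nat.le_mul_of_pos_right _ hl)
  have h4 : ((t * (Q * n₁ ^ i * l₁ ^ (e + 1 - i)) + D : ℕ) : ℝ) * ((t : ℝ) + c) ^ e ≤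
      2 * (Q * ((t : ℝ) * n₁ - n₂) ^ i * ((t : ℝ) * l₁ - n₂) ^ (e + 1 - i)) := by
    have a1 : ((t * (Q * n₁ ^ i * l₁ ^ (e + 1 - i)) + D : ℕ) : ℝ) =
        t * (X + D / (t : ℝ)) := by
      rw [hX]
      push_cast
      field_simp
    have a2 : (t : ℝ) + c = t * (1 + c / (t : ℝ)) := by field_simp
    have a3 : (t : ℝ) * n₁ - n₂ = t * ((n₁ : ℝ) - n₂ / (t : ℝ)) := by field_simp
    have a4 : (t : ℝ) * l₁ - n₂ = t * ((l₁ : ℝ) - n₂ / (t : ℝ)) := by field_simp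
    rw [a1, a2, a3, a4, mul_pow, mul_pow, mul_pow]
    have a5 : (t : ℝ) ^ i * (t : ℝ) ^ (e + 1 - i) = t ^ (e + 1) := by
      rw [← pow_add, Nat.add_sub_cancel' hi]
    calc (t : ℝ) * (X + D / (t : ℝ)) * (t ^ e * (1 + c / (t : ℝ)) ^ e)
        = t ^ (e + 1) * ((X + D / (t : ℝ)) * (1 + c / (t : ℝ)) ^ e) := by ring
      _ ≤ t ^ (e + 1) * (2 * (Q * ((n₁ : ℝ) - n₂ / (t : ℝ)) ^ i *
          ((l₁ : ℝ) - n₂ / (t : ℝ)) ^ (e + 1 - i))) :=
          mul_le_mul_of_nonneg_left ht.le (by positivity)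
      _ = _ := by rw [← a5]; ring
  have h5 : (((t * (Q * n₁ ^ i * l₁ ^ (e + 1 - i)) + D) * (t + c) ^ e : ℕ) : ℝ) ≤
      ((2 * (Q * (t * n₁ - n₂) ^ i * (t * l₁ - n₂) ^ (e + 1 - i)) : ℕ) : ℝ) := by
    push_cast [Nat.cast_sub e1, Nat.cast_sub e2]
    push_cast at h4
    exact h4
  exact_mod_cast h5

theorem pf_NM8 : T_NM8 := by
  intro e i Q Y n₁ l₁ n₂ c hi hQ hY hn hl
  obtain ⟨D, hD⟩ : ∃ D : ℕ, D = 2 * (e + 1).factorial * Y := ⟨_, rfl⟩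
  have hD0 : 0 < D := by
    rw [hD]
    have := Nat.factorial_pos (e + 1)
    positivity
  obtain ⟨t, ht1, ht2, hlg⟩ := large e i Q n₁ l₁ n₂ c D hi hQ hn hl
  have e1 : n₂ ≤ t * n₁ := ht2.trans (Nat.le_mul_of_pos_right _ hn)
  have e2 : n₂ ≤ t * l₁ := ht2.trans (Nat.le_mul_of_pos_right _ hl)
  obtain ⟨Z, hZ⟩ : ∃ Z : ℕ, Z = t * (Q * n₁ ^ i * l₁ ^ (e + 1 - i)) := ⟨_, rfl⟩
  obtain ⟨J, hJ⟩ : ∃ J : ℕ, J = (Z + D - 1) / D := ⟨_, rfl⟩
  have hJ1 : J * D < Z + D := by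
    have h1 := Nat.div_mul_le_self (Z + D - 1) D
    rw [← hJ] at h1
    omega
  have hJ2 : Z ≤ D * J := by
    have h1 := Nat.lt_div_mul_add (a := Z + D - 1) hD0
    rw [← hJ] at h1
    rw [mul_comm]
    omega
  refine ⟨t, t * n₁ - n₂, t * l₁ - n₂, J, ht1, Nat.sub_add_cancel e1, Nat.sub_add_cancel e2,
    ?_, ?_⟩
  · obtain ⟨n, hn'⟩ : ∃ n, n = t * n₁ - n₂ := ⟨_, rfl⟩
    obtain ⟨l, hl'⟩ : ∃ l, l = t * l₁ - n₂ := ⟨_, rfl⟩
    rw [← hn', ← hl'] at hlg ⊢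
    rw [← hZ] at hlg
    have htc : 0 < (t + c) ^ e := by positivity
    have c1 : n ^ i ≤ i.factorial * (n + i).choose i :=
      (Nat.pow_le_pow_left (Nat.le_succ n) i).trans (pow_le_choose n i)
    have c2 : l ^ (e + 1 - i) ≤ (e + 1 - i).factorial *
        (l + (e + 1 - i)).choose (e + 1 - i) :=
      (Nat.pow_le_pow_left (Nat.le_succ l) _).trans (pow_le_choose l _)
    have c3 : i.factorial * (e + 1 - i).factorial ≤ (e + 1).factorial :=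
      Nat.le_of_dvd (Nat.factorial_pos _) (Nat.factorial_mul_factorial_dvd_factorial hi)
    have c4 : Q * n ^ i * l ^ (e + 1 - i) ≤ (e + 1).factorial *
        (Q * ((n + i).choose i * (l + (e + 1 - i)).choose (e + 1 - i))) := by
      calc Q * n ^ i * l ^ (e + 1 - i) = Q * (n ^ i * l ^ (e + 1 - i)) := by ring
        _ ≤ Q * ((i.factorial * (n + i).choose i) * ((e + 1 - i).factorial *
            (l + (e + 1 - i)).choose (e + 1 - i))) :=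
            Nat.mul_le_mul_left _ (Nat.mul_le_mul c1 c2)
        _ = (i.factorial * (e + 1 - i).factorial) *
            (Q * ((n + i).choose i * (l + (e + 1 - i)).choose (e + 1 - i))) := by ring
        _ ≤ _ := Nat.mul_le_mul_right _ c3
    have c5 : (2 * (e + 1).factorial) * (J * (Y * (t + c) ^ e)) <
        (2 * (e + 1).factorial) *
          (Q * ((n + i).choose i * (l + (e + 1 - i)).choose (e + 1 - i))) := by
      calc (2 * (e + 1).factorial) * (J * (Y * (t + c) ^ e)) = (J * D) * (t + c) ^ e := by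
            rw [hD]; ring
        _ < (Z + D) * (t + c) ^ e := Nat.mul_lt_mul_of_pos_right hJ1 htc
        _ ≤ 2 * (Q * n ^ i * l ^ (e + 1 - i)) := hlg
        _ ≤ 2 * ((e + 1).factorial *
            (Q * ((n + i).choose i * (l + (e + 1 - i)).choose (e + 1 - i)))) :=
            Nat.mul_le_mul_left _ c4
        _ = _ := by ring
    exact lt_of_mul_lt_mul_left c5 (Nat.zero_le _)
  · rw [← hZ, ← hD]
    exact hJ2

end Pool.Agent.H60.EDM
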